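import Pool.Agent.H.MP_35c8d5.A

namespace Pool.Agent.H.MP_786be7

open Filter Topology Set

variable {Z : Type} [NormedAddCommGroup Z] [NormedSpace ℝ Z]

theorem smul {W : Set (Z →L[ℝ] ℝ)} {R : ℝ} (R0 : 0 ≤ R) (hR : ∀ w ∈ W, ‖w‖ ≤ R) {p : Z → ℝ}
    {r : (Z →L[ℝ] ℝ) → ℝ} (p1 : ∀ z, ∀ w ∈ W, w z - r w ≤ p z)
    (p2 : ∀ z η, 0 < η → ∃ w ∈ W, p z - η ≤ w z - r w) (z : Z)
    (h : ∀ v ε, 0 < ε → ∃ η > 0, ∀ w ∈ W, ∀ w' ∈ W, p z - η ≤ w z - r w → p z - η ≤ w' z - r w' →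
      |w v - w' v| ≤ ε) :
    ∃ f : Z →L[ℝ] ℝ, ∀ v, HasDerivAt (fun t : ℝ => p (z + t • v)) (f v) 0 := by
  choose w w1 w2 using fun n : ℕ => p2 z (1 / ((n : ℝ) + 1)) (by positivity)
  obtain ⟨f, f1, f2⟩ := MP_35c8d5.ulim (hyperfilter ℕ) w R0 (.of_forall fun n => hR _ (w1 n))
  have t0 : Tendsto (fun n : ℕ => 1 / ((n : ℝ) + 1)) (hyperfilter ℕ) (𝓝 0) :=
    tendsto_one_div_add_atTop_nhds_zero_nat.mono_left Nat.hyperfilter_le_atTop
  have l : ∀ v, p z - 0 + f v ≤ p (z + v) := fun v =>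
    le_of_tendsto' ((tendsto_const_nhds.sub t0).add (f2 v)) fun n => by
      have := p1 (z + v) _ (w1 n)
      rw [map_add] at this
      linarith [w2 n]
  refine ⟨f, fun v => hasDerivAt_iff_isLittleO_nhds_zero.2 (Asymptotics.isLittleO_iff.2 fun ε hε => ?_)⟩
  obtain ⟨η, η0, hη⟩ := h v (ε / 2) (by positivity)
  have k : ∀ a ∈ W, p z - η ≤ a z - r a → |a v - f v| ≤ ε / 2 := fun a ha h =>
    le_of_tendsto ((tendsto_const_nhds.sub (f2 v)).abs)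
      ((t0.eventually (ge_mem_nhds η0)).mono fun n hn => hη a ha _ (w1 n) h (by linarith [w2 n]))
  have c : Tendsto (fun t : ℝ => |t| * (ε / 2 + 2 * (R * ‖v‖))) (𝓝 0) (𝓝 0) :=
    Continuous.tendsto' (by fun_prop) _ _ (by simp)
  filter_upwards [c.eventually (ge_mem_nhds η0)] with t ht
  rcases eq_or_ne t 0 with rfl | t0
  · simp
  obtain ⟨a, ha, h⟩ := p2 (z + t • v) (ε / 2 * |t|) (by positivity)
  have l1 := l (t • v)
  simp only [map_add, map_smul, smul_eq_mul] at l1 h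
  have b : ∀ a : Z →L[ℝ] ℝ, ‖a‖ ≤ R → |t * a v| ≤ |t| * (R * ‖v‖) := fun a ha => by
    rw [abs_mul]
    gcongr
    exact (a.le_opNorm v).trans (by gcongr)
  have b1 := abs_le.1 (b a (hR a ha))
  have b2 := abs_le.1 (b f f1)
  have b3 := k a ha (by linarith [b1.2, b2.1])
  have b4 : |t * (a v - f v)| ≤ |t| * (ε / 2) := by
    rw [abs_mul]
    gcongr
  have := p1 z a ha
  simp only [zero_add, zero_smul, add_zero, smul_eq_mul, Real.norm_eq_abs]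
  exact abs_le.2 ⟨by nlinarith [abs_nonneg t], by linarith [(abs_le.1 b4).2]⟩

variable {Γ : Type} {e : Γ → Z} {f : Γ → Z →L[ℝ] ℝ} (b : ∀ x, HasSum (fun γ => f γ x • e γ) x)

include b

theorem tail (v : Z) {ε : ℝ} (hε : 0 < ε) (G : Finset Γ) : ∃ F : Finset Γ, G ⊆ F ∧
    ∀ w : Z →L[ℝ] ℝ, ‖w‖ ≤ 1 → |w v - ∑ γ ∈ F, f γ v * w (e γ)| ≤ ε := by
  obtain ⟨F, h1, h2⟩ := ((Metric.tendsto_nhds.1 (show Tendsto _ atTop _ from b v) ε hε).and
    (eventually_ge_atTop G)).exists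
  refine ⟨F, h2, fun w hw => ?_⟩
  have := w.le_opNorm (v - ∑ γ ∈ F, f γ v • e γ)
  rw [dist_comm, dist_eq_norm] at h1
  simp only [map_sub, map_sum, map_smul, smul_eq_mul] at this
  exact this.trans ((mul_le_of_le_one_left (norm_nonneg _) hw).trans h1.le)

theorem exψ {S : Type} [Fintype S] (π : Γ → S) (α : S → ℝ) (α0 : ∀ s, 0 ≤ α s) {t : ℝ}
    (t0 : 0 < t) : ∃ ψ : Z → ℝ, (∀ x y, ψ x - ψ y ≤ ‖x - y‖) ∧
      (∀ z, ∃ g : Z →L[ℝ] ℝ, ∀ v, HasDerivAt (fun s : ℝ => ψ (z + s • v)) (g v) 0) ∧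
      (∀ z c, (∀ w : Z →L[ℝ] ℝ, ‖w‖ ≤ 1 → (∀ γ, 0 ≤ w (e γ) ∧ w (e γ) ≤ α (π γ)) → w z ≤ c) →
        ψ z ≤ c) ∧
      ∀ (z) (w : Z →L[ℝ] ℝ), ‖w‖ ≤ 1 → (∀ γ, 0 ≤ w (e γ)) →
        (∀ s (T : Finset Γ), (∀ γ ∈ T, π γ = s) → ∑ γ ∈ T, w (e γ) ≤ α s) →
        w z - t * ∑' γ, w (e γ) ^ 2 ≤ ψ z := by
  classical
  let W : Set (Z →L[ℝ] ℝ) := {w | ‖w‖ ≤ 1 ∧ (∀ γ, 0 ≤ w (e γ)) ∧
    ∀ s (T : Finset Γ), (∀ γ ∈ T, π γ = s) → ∑ γ ∈ T, w (e γ) ≤ α s}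
  let r : (Z →L[ℝ] ℝ) → ℝ := fun w => t * ∑' γ, w (e γ) ^ 2
  have r0 : ∀ w, 0 ≤ r w := fun w => mul_nonneg t0.le (tsum_nonneg fun _ => sq_nonneg _)
  have sm : ∀ w ∈ W, Summable fun γ => w (e γ) ^ 2 := fun w hw => by
    have k : ∀ T : Finset Γ, ∑ γ ∈ T, w (e γ) ≤ ∑ s, α s := fun T => by
      rw [← Finset.sum_fiberwise T π]
      exact Finset.sum_le_sum fun s _ => hw.2.2 s _ fun γ h => (Finset.mem_filter.1 h).2
    refine .of_nonneg_of_le (fun _ => sq_nonneg _) (fun γ => ?_)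
      ((summable_of_sum_le hw.2.1 k).mul_left (∑ s, α s))
    rw [sq]
    exact mul_le_mul_of_nonneg_right (by simpa using k {γ}) (hw.2.1 γ)
  have le : ∀ w ∈ W, ∀ z, w z ≤ ‖z‖ := fun w hw z =>
    (le_abs_self _).trans ((w.le_opNorm z).trans (mul_le_of_le_one_left (norm_nonneg _) hw.1))
  let q : Z → ℝ := fun z => sSup ((fun w => w z - r w) '' W)
  have ne : ∀ z, ((fun w : Z →L[ℝ] ℝ => w z - r w) '' W).Nonempty := fun z =>
    ⟨_, 0, ⟨by simp, by simp, by simp [α0]⟩, rfl⟩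
  have q1 : ∀ z, ∀ w ∈ W, w z - r w ≤ q z := fun z w hw =>
    le_csSup ⟨‖z‖, by rintro _ ⟨w, hw, rfl⟩; exact (sub_le_self _ (r0 w)).trans (le w hw z)⟩
      ⟨w, hw, rfl⟩
  have q3 : ∀ z c, (∀ w ∈ W, w z - r w ≤ c) → q z ≤ c := fun z c h =>
    csSup_le (ne z) (by rintro _ ⟨w, hw, rfl⟩; exact h w hw)
  have q2 : ∀ z η, 0 < η → ∃ w ∈ W, q z - η ≤ w z - r w := fun z η h => by
    obtain ⟨_, ⟨w, hw, rfl⟩, h⟩ := exists_lt_of_lt_csSup (ne z) (sub_lt_self (q z) h)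
    exact ⟨w, hw, h.le⟩
  refine ⟨q, fun x y => sub_le_iff_le_add.2 (q3 _ _ fun w hw => ?_),
    fun z => smul zero_le_one (fun w hw => hw.1) q1 q2 z fun v ε hε => ?_,
    fun z c h => q3 _ _ fun w hw => (sub_le_self _ (r0 w)).trans (h w hw.1 fun γ =>
      ⟨hw.2.1 γ, by simpa using hw.2.2 (π γ) {γ}⟩), fun z w h1 h2 h3 => q1 z w ⟨h1, h2, h3⟩⟩
  · have := le w hw (x - y)
    rw [map_sub] at this
    linarith [q1 y w hw]
  obtain ⟨F, -, hF⟩ := tail b v (show 0 < ε / 4 by positivity) ∅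
  have p : 0 < ∑ γ ∈ F, |f γ v| + 1 := by positivity
  set δ := ε / 2 / (∑ γ ∈ F, |f γ v| + 1) with hδ
  have δ0 : 0 < δ := by positivity
  refine ⟨t * δ ^ 2 / 4, by positivity, fun w hw w' hw' h h' => ?_⟩
  have m : (1 / 2 : ℝ) • w + (1 / 2 : ℝ) • w' ∈ W := by
    refine ⟨(norm_add_le _ _).trans ?_, fun γ => ?_, fun s T h => ?_⟩
    · simp only [norm_smul, Real.norm_eq_abs, abs_of_pos (one_half_pos (α := ℝ))]
      linarith [hw.1, hw'.1]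
    · simp only [_root_.add_apply, _root_.smul_apply, smul_eq_mul]
      linarith [hw.2.1 γ, hw'.2.1 γ]
    · simp only [_root_.add_apply, _root_.smul_apply, smul_eq_mul, Finset.sum_add_distrib,
        ← Finset.mul_sum]
      linarith [hw.2.2 s T h, hw'.2.2 s T h]
  have k : ∀ γ, |w (e γ) - w' (e γ)| ≤ δ := fun γ => by
    have h1 := le_hasSum ((((sm w hw).hasSum.add (sm w' hw').hasSum).mul_left 2).sub
      ((sm _ m).hasSum.mul_left 4)) γ fun j _ => by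
        simp only [_root_.add_apply, _root_.smul_apply, smul_eq_mul]
        nlinarith [sq_nonneg (w (e j) - w' (e j))]
    have h2 := q1 z _ m
    simp only [r] at h h' h2
    generalize ∑' γ, ((1 / 2 : ℝ) • w + (1 / 2 : ℝ) • w') (e γ) ^ 2 = u at h1 h2
    simp only [_root_.add_apply, _root_.smul_apply, smul_eq_mul] at h1 h2
    refine abs_le.2 (abs_le_of_sq_le_sq' (le_of_mul_le_mul_left ?_ t0) δ0.le)
    nlinarith [mul_le_mul_of_nonneg_left h1 t0.le]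
  have h1 := abs_le.1 (hF w hw.1)
  have h2 := abs_le.1 (hF w' hw'.1)
  have h3 : |∑ γ ∈ F, f γ v * w (e γ) - ∑ γ ∈ F, f γ v * w' (e γ)| ≤ ε / 2 := by
    rw [← Finset.sum_sub_distrib]
    refine (Finset.abs_sum_le_sum_abs _ _).trans ((Finset.sum_le_sum (g := fun γ => |f γ v| * δ)
      fun γ _ => ?_).trans ?_)
    · rw [← mul_sub, abs_mul]
      exact mul_le_mul_of_nonneg_left (k γ) (abs_nonneg _)
    · rw [← Finset.sum_mul, hδ, mul_div_assoc', div_le_iff₀ p]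
      nlinarith
  rw [abs_le] at h3 ⊢
  constructor <;> linarith [h3.1, h3.2]

theorem unc [CompleteSpace Z] : ∃ K : ℝ, 0 < K ∧ ∀ (g : Z →L[ℝ] ℝ) x (T : Finset Γ), ‖g‖ ≤ 1 →
    ∑ γ ∈ T, |f γ x * g (e γ)| ≤ K * ‖x‖ := by
  classical
  obtain ⟨K, hK⟩ := banach_steinhaus (g := fun T : Finset Γ => ∑ γ ∈ T, (f γ).smulRight (e γ))
    fun x => by
      obtain ⟨F, hF⟩ := summable_iff_vanishing_norm.1 (b x).summable 1 one_pos
      refine ⟨∑ γ ∈ F, ‖f γ x • e γ‖ + 1, fun T => ?_⟩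
      rw [_root_.sum_apply, ← Finset.sum_inter_add_sum_sdiff T F]
      exact norm_add_le_of_le ((norm_sum_le _ _).trans (Finset.sum_le_sum_of_subset_of_nonneg
        Finset.inter_subset_right fun _ _ _ => norm_nonneg _)) (hF _ Finset.sdiff_disjoint).le
  have K0 : 0 ≤ K := (norm_nonneg _).trans (hK ∅)
  refine ⟨2 * K + 1, by positivity, fun g x T hg => ?_⟩
  have k : ∀ T : Finset Γ, |∑ γ ∈ T, f γ x * g (e γ)| ≤ K * ‖x‖ := fun T => by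
    have := (g.le_opNorm _).trans ((mul_le_of_le_one_left (norm_nonneg _) hg).trans
      (((∑ γ ∈ T, (f γ).smulRight (e γ)).le_opNorm x).trans
        (mul_le_mul_of_nonneg_right (hK T) (norm_nonneg _))))
    simpa [_root_.sum_apply] using this
  rw [← Finset.sum_filter_add_sum_filter_not T fun γ => 0 ≤ f γ x * g (e γ),
    Finset.sum_congr rfl fun γ h => abs_of_nonneg (Finset.mem_filter.1 h).2,
    Finset.sum_congr (s₁ := T.filter fun γ => ¬ 0 ≤ f γ x * g (e γ)) rfl fun γ h =>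
      abs_of_neg (not_le.1 (Finset.mem_filter.1 h).2), Finset.sum_neg_distrib]
  linarith [(abs_le.1 (k (T.filter fun γ => 0 ≤ f γ x * g (e γ)))).2, norm_nonneg x,
    (abs_le.1 (k (T.filter fun γ => ¬ 0 ≤ f γ x * g (e γ)))).1]

end Pool.Agent.H.MP_786be7
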