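import Pool.Agent.H.MP_786be7.A

namespace Pool.Agent.H.MP_786be7

open Filter Topology Set
open scoped ENNReal

variable {Z : Type} [NormedAddCommGroup Z] [NormedSpace ℝ Z]
  {Γ : Type} {e : Γ → Z} {f : Γ → Z →L[ℝ] ℝ} (b : ∀ x, HasSum (fun γ => f γ x • e γ) x)
  (b1 : ∀ i, f i (e i) = 1) (b2 : ∀ i j, i ≠ j → f i (e j) = 0)

theorem two {β P : Γ → ℝ} {D : ℝ} (h1 : ∀ G : Finset Γ, ∑ γ ∈ G, β γ * P γ ≤ D)
    (h2 : ∀ G : Finset Γ, ∑ γ ∈ G, β γ * -P γ ≤ D) (F : Finset Γ) :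
    ∑ γ ∈ F, β γ * |P γ| ≤ 2 * D := by
  classical
  rw [← Finset.sum_filter_add_sum_filter_not F fun γ => 0 ≤ P γ,
    Finset.sum_congr rfl fun γ h => congrArg _ (abs_of_nonneg (Finset.mem_filter.1 h).2),
    Finset.sum_congr (s₁ := F.filter fun γ => ¬ 0 ≤ P γ) rfl fun γ h =>
      congrArg _ (abs_of_neg (not_le.1 (Finset.mem_filter.1 h).2)), two_mul]
  exact add_le_add (h1 _) (h2 _)

include b b1 b2

theorem fam {c : Γ → ℕ → Bool} (hc : c.Injective) :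
    ∃ ψ : (Σ n, ((Fin n → Bool) → ℕ) × ℕ) → Z → ℝ, (∀ j x y, ψ j x - ψ j y ≤ ‖x - y‖) ∧
      (∀ j z, ∃ g : Z →L[ℝ] ℝ, ∀ v, HasDerivAt (fun s : ℝ => ψ j (z + s • v)) (g v) 0) ∧
      ∀ x y D, (∀ j, ψ j x - ψ j y ≤ D) → ∀ β : Γ → ℝ, (∀ γ, 0 ≤ β γ) →
        (∀ (G : Finset Γ) (θ : Γ → ℝ), (∀ γ, 0 ≤ θ γ ∧ θ γ ≤ β γ) → ‖∑ γ ∈ G, θ γ • f γ‖ ≤ 1) →
        ∀ G : Finset Γ, ∑ γ ∈ G, β γ * (max (f γ x) 0 - max (f γ y) 0) ≤ D := by
  classical
  choose ψ ψ1 ψ2 ψ3 ψ4 using fun j : Σ n, ((Fin n → Bool) → ℕ) × ℕ => exψ b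
    (fun γ (i : Fin j.1) => c γ i) (fun s => j.2.1 s / ((j.2.2 : ℝ) + 1)) (fun s => by positivity)
    (show 0 < 1 / ((j.2.2 : ℝ) + 1) by positivity)
  refine ⟨ψ, ψ1, ψ2, fun x y D hD β β0 hβ G => le_of_forall_pos_le_add fun ε hε => ?_⟩
  obtain ⟨F, F1, F2⟩ := tail b y hε G
  obtain ⟨n, hn⟩ : ∃ n, ∀ γ ∈ F, ∀ γ' ∈ F, (fun i : Fin n => c γ i) = (fun i : Fin n => c γ' i) →
      γ = γ' := ((eventually_all_finset F).2 fun γ _ => (eventually_all_finset F).2 fun γ' _ => by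
    by_cases h : γ = γ'
    · simp [h]
    · obtain ⟨i, hi⟩ := Function.ne_iff.1 (hc.ne h)
      exact (eventually_gt_atTop i).mono fun n hn h => absurd (congrFun h ⟨i, hn⟩) hi).exists
  let q : ℕ → Γ → ℝ := fun k γ => ⌊β γ * ((k : ℝ) + 1)⌋₊ / ((k : ℝ) + 1)
  have q0 : ∀ k γ, 0 ≤ q k γ := fun k γ => by positivity
  have q1 : ∀ k γ, q k γ ≤ β γ := fun k γ =>
    (div_le_iff₀ (by positivity)).2 (Nat.floor_le (mul_nonneg (β0 γ) (by positivity)))
  have t : Tendsto (fun k : ℕ => ∑ γ ∈ G, q k γ * (max (f γ x) 0 - max (f γ y) 0) -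
      1 / ((k : ℝ) + 1) * ∑ γ ∈ G, β γ ^ 2) atTop
      (𝓝 (∑ γ ∈ G, β γ * (max (f γ x) 0 - max (f γ y) 0) - 0 * ∑ γ ∈ G, β γ ^ 2)) :=
    (tendsto_finsetSum _ fun γ _ => ((tendsto_nat_floor_mul_div_atTop (β0 γ)).comp
      (tendsto_natCast_atTop_atTop.atTop_add tendsto_const_nhds)).mul_const _).sub
      (tendsto_one_div_add_atTop_nhds_zero_nat.mul_const _)
  rw [zero_mul, sub_zero] at t
  refine le_of_tendsto' t fun k => ?_
  let j : Σ n, ((Fin n → Bool) → ℕ) × ℕ := ⟨n, fun s =>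
    ∑ γ ∈ G with (fun i : Fin n => c γ i) = s, ⌊β γ * ((k : ℝ) + 1)⌋₊, k⟩
  have a : ∀ s, (j.2.1 s : ℝ) / ((j.2.2 : ℝ) + 1) =
      ∑ γ ∈ G with (fun i : Fin n => c γ i) = s, q k γ := fun s => by
    simp only [j, q, Nat.cast_sum, Finset.sum_div]
  let θ : Γ → ℝ := fun γ => if 0 ≤ f γ x then q k γ else 0
  have θ1 : ∀ γ, 0 ≤ θ γ ∧ θ γ ≤ q k γ := fun γ => by
    simp only [θ]
    split_ifs <;> simp [q0]
  have w : ∀ γ, (∑ γ ∈ G, θ γ • f γ) (e γ) = if γ ∈ G then θ γ else 0 := fun γ => by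
    rw [_root_.sum_apply, Finset.sum_eq_ite γ fun i _ h => by simp [b2 _ _ h]]
    simp [b1]
  have h1 := ψ4 j x _ (hβ G θ fun γ => ⟨(θ1 γ).1, (θ1 γ).2.trans (q1 k γ)⟩)
    (fun γ => by rw [w]; split_ifs <;> simp [θ1]) fun s T hT => by
      simp only [w, a, Finset.sum_ite_mem]
      exact (Finset.sum_le_sum fun γ _ => (θ1 γ).2).trans (Finset.sum_le_sum_of_subset_of_nonneg
        (fun γ h => Finset.mem_filter.2 ⟨(Finset.mem_inter.1 h).2, hT γ (Finset.mem_inter.1 h).1⟩)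
        fun γ _ _ => q0 k γ)
  have h2 := ψ3 j y (∑ γ ∈ G, q k γ * max (f γ y) 0 + ε) fun w hw h => by
    have : ∑ γ ∈ F, f γ y * w (e γ) ≤ ∑ γ ∈ F, if γ ∈ G then q k γ * max (f γ y) 0 else 0 := by
      refine Finset.sum_le_sum fun γ hγ => ?_
      have := (h γ).2
      rw [a, Finset.sum_eq_ite γ fun i hi h => absurd
        (hn _ (F1 (Finset.mem_filter.1 hi).1) _ hγ (Finset.mem_filter.1 hi).2) h] at this
      simp only [Finset.mem_filter, and_true] at this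
      refine (mul_le_mul_of_nonneg_right (le_max_left _ 0) (h γ).1).trans
        ((mul_le_mul_of_nonneg_left this (le_max_right _ _)).trans_eq ?_)
      split_ifs
      · ring
      · simp
    rw [Finset.sum_ite_mem, Finset.inter_eq_right.2 F1] at this
    linarith [(abs_le.1 (F2 w hw)).2]
  have h3 : ∑' γ, (∑ γ ∈ G, θ γ • f γ) (e γ) ^ 2 ≤ ∑ γ ∈ G, β γ ^ 2 := by
    rw [tsum_eq_sum (s := G) fun γ h => by simp [w, h]]
    refine Finset.sum_le_sum fun γ h => ?_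
    rw [w, if_pos h]
    exact pow_le_pow_left₀ (θ1 γ).1 ((θ1 γ).2.trans (q1 k γ)) 2
  have h4 : (∑ γ ∈ G, θ γ • f γ) x = ∑ γ ∈ G, q k γ * max (f γ x) 0 := by
    rw [_root_.sum_apply]
    refine Finset.sum_congr rfl fun γ _ => ?_
    by_cases h : 0 ≤ f γ x
    · simp [θ, h]
    · simp [θ, h, (not_le.1 h).le]
  have := mul_le_mul_of_nonneg_left h3 (show 0 ≤ 1 / ((k : ℝ) + 1) by positivity)
  simp only [mul_sub, Finset.sum_sub_distrib]
  linarith [hD j]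

theorem main [CompleteSpace Z] {D : Set Z} (D1 : Dense D) (D2 : Cardinal.mk D = Cardinal.continuum) :
    ∃ (φ : Z → lp (fun _ : ℕ => ℝ) ∞) (K L : NNReal),
      LipschitzWith K φ ∧ AntilipschitzWith L φ ∧
      ∀ (j : ℕ) (x : Z), ∃ g : Z →L[ℝ] ℝ, ∀ h : Z,
        HasDerivAt (fun t : ℝ => φ (x + t • h) j) (g h) 0 := by
  obtain ⟨c, hc⟩ : ∃ c : Γ → ℕ → Bool, c.Injective := by
    have h1 : (univ : Set Γ) ⊆ ⋃ d : D, Function.support fun γ => f γ d • e γ := fun γ _ => by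
      obtain ⟨d, h1, h2⟩ := D1.exists_mem_open (isOpen_ne_fun (f γ).continuous continuous_const)
        ⟨e γ, show f γ (e γ) ≠ 0 by simp [b1]⟩
      refine mem_iUnion.2 ⟨⟨d, h1⟩, smul_ne_zero h2 fun h => ?_⟩
      simpa [h] using b1 γ
    have h2 := (Cardinal.mk_le_mk_of_subset h1).trans ((Cardinal.mk_iUnion_le _).trans
      (mul_le_mul' D2.le (ciSup_le' fun d => (b d).summable.countable_support.le_aleph0)))
    rw [Cardinal.mk_univ, Cardinal.continuum_mul_aleph0] at h2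
    obtain ⟨c⟩ := (Cardinal.le_def Γ (ℕ → Bool)).1 (by simpa using h2)
    exact ⟨c, c.2⟩
  obtain ⟨ψ, ψ1, ψ2, ψ3⟩ := fam b b1 b2 hc
  obtain ⟨K, K0, hK⟩ := unc b
  obtain ⟨ν, hν⟩ := exists_surjective_nat ((Σ n, ((Fin n → Bool) → ℕ) × ℕ) × Bool)
  let u : ℕ → Z → ℝ := fun j z => ψ (ν j).1 (if (ν j).2 then z else -z)
  have u1 : ∀ j x y, |u j x - u j y| ≤ ‖x - y‖ := fun j x y => by
    simp only [u]
    refine abs_sub_le_iff.2 ⟨(ψ1 _ _ _).trans_eq ?_, (ψ1 _ _ _).trans_eq ?_⟩ <;> split_ifs <;>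
      simp only [neg_sub_neg, norm_sub_rev x y]
  let φ : Z → lp (fun _ : ℕ => ℝ) ∞ := fun z => ⟨fun j => u j z - u j 0,
    memℓp_infty ⟨‖z - 0‖, by rintro _ ⟨j, rfl⟩; exact u1 j z 0⟩⟩
  have φ1 : ∀ x y j, (φ x - φ y) j = u j x - u j y := fun x y j => sub_sub_sub_cancel_right _ _ _
  refine ⟨φ, 1, NNReal.mk (4 * K) (by positivity), LipschitzWith.of_dist_le_mul fun x y => ?_,
    AntilipschitzWith.of_le_mul_dist fun x y => ?_, fun j x => ?_⟩
  · rw [NNReal.coe_one, one_mul, dist_eq_norm, dist_eq_norm]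
    exact lp.norm_le_of_forall_le (norm_nonneg _) fun j => by rw [φ1]; exact u1 j x y
  · rw [dist_eq_norm, dist_eq_norm, NNReal.coe_mk]
    have k : ∀ j s, |ψ j (if s = true then x else -x) - ψ j (if s = true then y else -y)| ≤
        ‖φ x - φ y‖ := fun j s => by
      obtain ⟨n, hn⟩ := hν (j, s)
      have := lp.norm_apply_le_norm ENNReal.top_ne_zero (φ x - φ y) n
      rw [φ1] at this
      simpa only [u, hn, Real.norm_eq_abs] using this
    obtain ⟨g, g1, g2⟩ := exists_dual_vector'' ℝ (x - y)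
    have p := fun x' y' h => ψ3 x' y' ‖φ x - φ y‖ h (fun γ => |g (e γ)| / K) (fun γ => by positivity)
      fun G θ hθ => ContinuousLinearMap.opNorm_le_bound _ zero_le_one fun z => by
        rw [_root_.sum_apply, one_mul]
        refine (norm_sum_le_of_le G (n := fun γ => |f γ z * g (e γ)| / K) fun γ _ => ?_).trans ?_
        · rw [_root_.smul_apply, norm_smul, Real.norm_of_nonneg (hθ γ).1, abs_mul, mul_div_assoc,
            mul_comm]
          exact mul_le_mul_of_nonneg_left (hθ γ).2 (abs_nonneg _)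
        · rw [← Finset.sum_div, div_le_iff₀' K0]
          exact hK g z G g1
    refine g2.symm.trans_le (le_of_tendsto' (show Tendsto _ atTop _ from g.hasSum (b (x - y)))
      fun F => ?_)
    have h1 := two (p x y fun j => (abs_sub_le_iff.1 (k j true)).1) (by
      simpa only [neg_sub] using p y x fun j => (abs_sub_le_iff.1 (k j true)).2) F
    have h2 := two (p (-x) (-y) fun j => (abs_sub_le_iff.1 (k j false)).1) (by
      simpa only [neg_sub] using p (-y) (-x) fun j => (abs_sub_le_iff.1 (k j false)).2) F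
    have h3 := mul_le_mul_of_nonneg_left (add_le_add h1 h2) K0.le
    rw [← Finset.sum_add_distrib, Finset.mul_sum] at h3
    refine (Finset.sum_le_sum fun γ _ => ?_).trans (h3.trans_eq (by ring))
    rw [← mul_add, ← mul_assoc, mul_div_cancel₀ _ K0.ne', map_smul, smul_eq_mul, mul_comm]
    refine (le_abs_self _).trans ((abs_mul _ _).trans_le
      (mul_le_mul_of_nonneg_left (le_trans (le_of_eq ?_) (abs_sub _ _)) (abs_nonneg _)))
    rw [map_sub, map_neg, map_neg, sub_sub_sub_comm, max_zero_sub_max_neg_zero_eq_self,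
      max_zero_sub_max_neg_zero_eq_self]
  · simp only [φ, u]
    cases (ν j).2
    · obtain ⟨g, hg⟩ := ψ2 (ν j).1 (-x)
      refine ⟨-g, fun h => HasDerivAt.sub_const _ ?_⟩
      simpa [add_comm] using hg (-h)
    · obtain ⟨g, hg⟩ := ψ2 (ν j).1 x
      exact ⟨g, fun h => HasDerivAt.sub_const _ (hg h)⟩

end Pool.Agent.H.MP_786be7
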